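import Pool.Agent.Run7.h432.LV.Stm

/-!
# Piece VA of project LV (helper432): additivity in each variable
-/

set_option autoImplicit false

namespace Run7.h382.LV

open Run7.h432.LV

universe u

theorem map_upd {U : Type u} [Ring U] {ι : Type} [DecidableEq ι] (w : List (U ⊕ ι)) (x : ι → U)
    (i : ι) (p : U) (h : Sum.inr i ∉ w) :
    w.map (Sum.elim id (Function.update x i p)) = w.map (Sum.elim id x) := by
  apply List.map_congr_left
  intro l hl
  rcases l with c | k
  · rfl
  · have hk : k ≠ i := by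
      rintro rfl
      exact h hl
    simp [Function.update_of_ne hk]

theorem once_split {X : Type u} {ι : Type} (w : List (X ⊕ ι)) (h : Once w) (i : ι) :
    ∃ w1 w2 : List (X ⊕ ι), w = w1 ++ Sum.inr i :: w2 ∧ Sum.inr i ∉ w1 ∧ Sum.inr i ∉ w2 := by
  obtain ⟨w1, w2, hw⟩ := List.append_of_mem (h.2 i)
  have h1 := h.1
  have h0 : (Sum.inr i :: w2 : List (X ⊕ ι)).filterMap Sum.getRight? =
      i :: w2.filterMap Sum.getRight? := rfl
  rw [hw, List.filterMap_append, h0, List.nodup_middle, List.nodup_cons] at h1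
  refine ⟨w1, w2, hw, fun hm => h1.1 ?_, fun hm => h1.1 ?_⟩
  · exact List.mem_append_left _ (List.mem_filterMap.2 ⟨_, hm, rfl⟩)
  · exact List.mem_append_right _ (List.mem_filterMap.2 ⟨_, hm, rfl⟩)

theorem ev_upd {U : Type u} [Ring U] {ι : Type} [DecidableEq ι] (w1 w2 : List (U ⊕ ι)) (x : ι → U)
    (i : ι) (p : U) (h1 : Sum.inr i ∉ w1) (h2 : Sum.inr i ∉ w2) :
    ev (w1 ++ Sum.inr i :: w2) (Function.update x i p) = ev w1 x * (p * ev w2 x) := by
  unfold ev
  rw [List.map_append, List.map_cons, List.prod_append, List.prod_cons, map_upd w1 x i p h1,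
    map_upd w2 x i p h2]
  simp

theorem t_VA : S_VA.{u} := by
  intro U _ ι _ F hF
  unfold V at hF
  induction hF using AddSubgroup.closure_induction with
  | mem G hG =>
    obtain ⟨w, hw, rfl⟩ := hG
    intro x i p q
    obtain ⟨w1, w2, rfl, h1, h2⟩ := once_split w hw i
    rw [ev_upd w1 w2 x i _ h1 h2, ev_upd w1 w2 x i _ h1 h2, ev_upd w1 w2 x i _ h1 h2, add_mul,
      mul_add]
  | zero => intro x i p q; simp
  | add G H _ _ h1 h2 =>
    intro x i p q
    simp only [Pi.add_apply]
    rw [h1, h2]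
    abel
  | neg G _ h1 =>
    intro x i p q
    simp only [Pi.neg_apply]
    rw [h1]
    abel

end Run7.h382.LV
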